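import Pool.Agent.P.MP_3f3880_lc.Main

open Pool.Agent.P.MP_3f3880_lc

theorem Pool.Agent.Results.MP_3f3880_lc.Counterexample.result :
    ∃ (G : SimpleGraph (Fin 10)) (s t : Fin 10), G.Connected ∧ s ≠ t ∧
    ∀ α : ℝ, 1 < α → α < 9 / 7 →
      ∀ A : (Sym2 (Fin 10) → ℝ) → G.Walk s t, IsOnline G s t α A →
        ∃ w, Admissible G α w ∧ ∃ p : G.Walk s t, Covers p ∧
          (1 + α) / 2 * cost w p < cost w (A w) :=
  Pool.Agent.P.MP_3f3880_lc.main
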