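import Pool.Agent.P.MP_3f3880_lc.FirstMain

open Pool.Agent.P.MP_3f3880_lc

/-- For every slope `κ < 1` there is a graph on which, for all `α` with `1 < α ≤ 1 + 1/n`, no online
algorithm has ratio `1 + κ (α - 1)`. The conjectured ratio is the case `κ = 1/2`. -/
theorem Pool.Agent.Results.MP_3f3880_lc.FirstOrder.result (κ : ℝ) (hκ : κ < 1) :
    ∃ (n : ℕ) (G : SimpleGraph (Fin n)) (s t : Fin n), G.Connected ∧ s ≠ t ∧
    ∀ α : ℝ, 1 < α → α ≤ 1 + 1 / (n : ℝ) →
      ∀ A : (Sym2 (Fin n) → ℝ) → G.Walk s t, IsOnline G s t α A →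
        ∃ w, Admissible G α w ∧ ∃ p : G.Walk s t, Covers p ∧
          (1 + κ * (α - 1)) * cost w p < cost w (A w) :=
  FO.first_order κ hκ
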